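import Pool.Agent.H76.SW.CT

/-!
Satisfaction of coded conjunctive queries.
-/

set_option autoImplicit false

namespace Pool.Agent.H67.SW

open Pool.Agent.H76.SW

theorem getD_ofFn {N n : ℕ} (μ : Fin N → Fin n) (i : Fin N) :
    (List.ofFn fun i => (μ i : ℕ)).getD (i : ℕ) 0 = (μ i : ℕ) := by
  rw [List.getD_eq_getElem?_getD]
  simp

theorem pf_CCI (h1 : V_LM) (h2 : V_AI) : V_CI := by
  intro A c n r nm b q hq out ho E0 R E hE hb z
  obtain ⟨hn, hlen, hat⟩ := hq
  -- an atom with the ends evaluated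
  have key : ∀ (μ : Fin b.n → Fin n) (i : Fin b.m) (x : AutC) (hx : CodesAut nm (b.aut i) x),
      AtSat E x (μ (b.src i) : ℕ) (μ (b.tgt i) : ℕ) ↔
        ∃ w ∈ (b.aut i).accepts, Path (ext E0 R) (μ (b.src i)) w (μ (b.tgt i)) := by
    intro μ i x hx
    exact h2 nm (b.aut i) x hx (ext E0 R) E hE hb _ _
  have houts : ∀ μ : Fin b.n → Fin n,
      (q.1.2.map (fun i => (List.ofFn fun i => (μ i : ℕ)).getD i 0) =
        List.ofFn fun i => (z i : ℕ)) ↔ ∀ i, μ (out i) = z i := by
    intro μ
    rw [ho, List.map_ofFn]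
    constructor
    · intro h i
      have h3 := List.ofFn_injective h
      have h4 := congrFun h3 i
      simp only [Function.comp] at h4
      rw [getD_ofFn] at h4
      exact Fin.ext h4
    · intro h
      congr 1
      funext i
      simp only [Function.comp]
      rw [getD_ofFn, h i]
  constructor
  · rintro ⟨l, hl, hll, hats, hz⟩
    rw [h1] at hl
    -- the assignment
    have hln : l.length = b.n := by rw [hll, hn]
    have hlt : ∀ i : Fin b.n, l[(i : ℕ)]'(by rw [hln]; exact i.2) < n := by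
      intro i
      have := hl.2 _ (List.getElem_mem (by rw [hln]; exact i.2 : (i : ℕ) < l.length))
      exact List.mem_range.1 this
    set μ : Fin b.n → Fin n := fun i => ⟨l[(i : ℕ)]'(by rw [hln]; exact i.2), hlt i⟩ with hμ
    have hlμ : l = List.ofFn fun i => (μ i : ℕ) := by
      apply List.ext_getElem
      · rw [List.length_ofFn, hln]
      · intro i h3 h4
        rw [List.getElem_ofFn]
    rw [hlμ] at hats hz
    refine ⟨μ, ?_, (houts μ).1 hz⟩
    intro i
    obtain ⟨x, hx1, hx2⟩ := hat i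
    have hmem := List.mem_of_getElem? hx1
    have h5 := hats _ hmem
    simp only at h5
    rw [getD_ofFn, getD_ofFn] at h5
    exact (key μ i x hx2).1 h5
  · rintro ⟨μ, hμ, hz⟩
    refine ⟨List.ofFn fun i => (μ i : ℕ), ?_, ?_, ?_, (houts μ).2 hz⟩
    · rw [h1, List.length_ofFn, hn]
      refine ⟨le_refl _, ?_⟩
      intro x hx
      rw [List.mem_ofFn] at hx
      obtain ⟨i, rfl⟩ := hx
      exact List.mem_range.2 (μ i).2
    · rw [List.length_ofFn, hn]
    · intro t ht
      obtain ⟨j, hj, hjt⟩ := List.mem_iff_getElem.1 ht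
      have hjm : j < b.m := by rw [← hlen]; exact hj
      obtain ⟨x, hx1, hx2⟩ := hat ⟨j, hjm⟩
      have hx3 : t = (((b.src ⟨j, hjm⟩ : ℕ), (b.tgt ⟨j, hjm⟩ : ℕ)), x) := by
        have := List.getElem?_eq_getElem hj
        simp only at hx1
        rw [this, hjt] at hx1
        exact Option.some.inj hx1
      subst hx3
      simp only
      rw [getD_ofFn, getD_ofFn]
      exact (key μ ⟨j, hjm⟩ x hx2).2 (hμ ⟨j, hjm⟩)

end Pool.Agent.H67.SW
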