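import Pool.Agent.H76.SW.CT

/-!
Only the edges with letters of the query matter.
-/

namespace Pool.Agent.H67.SW

open Pool.Agent.H76.SW
open Relation

theorem pstep_congr {L : ℕ} {E E' : GrC}
    (hE : ∀ e : (ℕ × ℕ) × ℕ, e.1.2 < L → (e ∈ E ↔ e ∈ E')) {T : List TrC}
    (hT : ∀ y ∈ T, y.1.2.1 < L) (x y : ℕ × ℕ) : PStep E T x y → PStep E' T x y := by
  rintro ⟨l, b, h1, h2⟩
  have hl : l < L := hT _ h1
  refine ⟨l, b, h1, ?_⟩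
  rcases h2 with ⟨hb, h⟩ | ⟨hb, h⟩
  · exact Or.inl ⟨hb, (hE _ hl).1 h⟩
  · exact Or.inr ⟨hb, (hE _ hl).1 h⟩

theorem atsat_congr (h1 : V_RI) {L : ℕ} {E E' : GrC}
    (hE : ∀ e : (ℕ × ℕ) × ℕ, e.1.2 < L → (e ∈ E ↔ e ∈ E')) {x : AutC}
    (hT : ∀ y ∈ x.2, y.1.2.1 < L) (u v : ℕ) : AtSat E x u v → AtSat E' x u v := by
  rintro ⟨s, hs, s', hs', h⟩
  refine ⟨s, hs, s', hs', ?_⟩
  rw [h1] at h ⊢
  exact ReflTransGen.mono (fun a b hab => pstep_congr hE hT a b hab) _ _ h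

theorem uqsat_congr (h1 : V_RI) {n L : ℕ} {E E' : GrC}
    (hE : ∀ e : (ℕ × ℕ) × ℕ, e.1.2 < L → (e ∈ E ↔ e ∈ E')) {Q : UqC}
    (hQ : ∀ q ∈ Q, ∀ t ∈ q.2, ∀ y ∈ t.2.2, y.1.2.1 < L) (z : List ℕ) :
    UqSat n E Q z → UqSat n E' Q z := by
  rintro ⟨q, hq, μ, hμ, hl, ha, ho⟩
  exact ⟨q, hq, μ, hμ, hl, fun t ht => atsat_congr h1 hE (hQ q hq t ht) _ _ (ha t ht), ho⟩

theorem pf_CSC (h1 : V_RI) : V_SC := by
  intro n L E E' hE Q hQ z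
  exact ⟨uqsat_congr h1 hE hQ z, uqsat_congr h1 (fun e he => (hE e he).symm) hQ z⟩

end Pool.Agent.H67.SW
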