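import Pool.Agent.H76.SW.CT

/-!
Bounded tree-width of coded graphs is primitive recursive.
-/

set_option autoImplicit false

namespace Pool.Agent.H67.SW

open Pool.Agent.H76.SW

theorem ex_listT {α β : Type} [Primcodable α] [Primcodable β] {L : α → List β}
    {R : α → β → Prop} (hL : Primrec L) (hR : PrimrecPred fun x : α × β => R x.1 x.2) :
    PrimrecPred fun a => ∃ b ∈ L a, R a b := by
  have h : PrimrecRel (fun (b : β) (a : α) => R a b) :=
    hR.comp (Primrec.pair Primrec.snd Primrec.fst)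
  exact h.exists_mem_list.comp hL Primrec.id

theorem all_listT {α β : Type} [Primcodable α] [Primcodable β] {L : α → List β}
    {R : α → β → Prop} (hL : Primrec L) (hR : PrimrecPred fun x : α × β => R x.1 x.2) :
    PrimrecPred fun a => ∀ b ∈ L a, R a b := by
  have h : PrimrecRel (fun (b : β) (a : α) => R a b) :=
    hR.comp (Primrec.pair Primrec.snd Primrec.fst)
  exact h.forall_mem_list.comp hL Primrec.id

theorem mem_listT {α β : Type} [Primcodable α] [Primcodable β] {L : α → List β} {f : α → β}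
    (hL : Primrec L) (hf : Primrec f) : PrimrecPred fun a => f a ∈ L a := by
  have h : PrimrecPred fun a => ∃ b ∈ L a, b = f a :=
    ex_listT hL (Primrec.eq.comp Primrec.snd (hf.comp Primrec.fst))
  exact h.of_eq fun a => by simp

/-- Nodes. -/
abbrev NdC := ℕ × List ℕ

/-- Covering of a vertex. -/
theorem cov_pr : PrimrecPred fun p : (ℕ × List (ℕ × ℕ)) × List NdC =>
    ∀ v ∈ List.range p.1.1, ∃ d ∈ p.2, v ∈ d.2 := by
  have h1 : PrimrecPred fun x : (((ℕ × List (ℕ × ℕ)) × List NdC) × ℕ) × NdC => x.1.2 ∈ x.2.2 :=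
    mem_listT (Primrec.snd.comp Primrec.snd) (Primrec.snd.comp Primrec.fst)
  have h2 : PrimrecPred fun x : ((ℕ × List (ℕ × ℕ)) × List NdC) × ℕ => ∃ d ∈ x.1.2, x.2 ∈ d.2 :=
    ex_listT (Primrec.snd.comp Primrec.fst) h1
  exact all_listT (Primrec.list_range.comp (Primrec.fst.comp Primrec.fst)) h2

/-- Covering of the edges. -/
theorem edg_pr : PrimrecPred fun p : (ℕ × List (ℕ × ℕ)) × List NdC =>
    ∀ e ∈ p.1.2, ∃ d ∈ p.2, e.1 ∈ d.2 ∧ e.2 ∈ d.2 := by
  have h1 : PrimrecPred fun x : (((ℕ × List (ℕ × ℕ)) × List NdC) × (ℕ × ℕ)) × NdC =>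
      x.1.2.1 ∈ x.2.2 ∧ x.1.2.2 ∈ x.2.2 :=
    PrimrecPred.and
      (mem_listT (Primrec.snd.comp Primrec.snd)
        (Primrec.fst.comp (Primrec.snd.comp Primrec.fst)))
      (mem_listT (Primrec.snd.comp Primrec.snd)
        (Primrec.snd.comp (Primrec.snd.comp Primrec.fst)))
  have h2 : PrimrecPred fun x : ((ℕ × List (ℕ × ℕ)) × List NdC) × (ℕ × ℕ) =>
      ∃ d ∈ x.1.2, x.2.1 ∈ d.2 ∧ x.2.2 ∈ d.2 :=
    ex_listT (Primrec.snd.comp Primrec.fst) h1
  exact all_listT (Primrec.snd.comp Primrec.fst) h2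

/-- Connectedness. -/
theorem con_pr : PrimrecPred fun p : (ℕ × List (ℕ × ℕ)) × List NdC =>
    ∀ v ∈ List.range p.1.1, ∃ t ∈ List.range p.2.length, v ∈ (p.2.getD t (0, [])).2 ∧
      ∀ x ∈ List.range p.2.length, v ∈ (p.2.getD x (0, [])).2 → x = t ∨
        ((p.2.getD x (0, [])).1 < x ∧ v ∈ (p.2.getD (p.2.getD x (0, [])).1 (0, [])).2) := by
  -- the innermost statement; `x = (((p, v), t), x)`
  have hD : Primrec fun x : ((((ℕ × List (ℕ × ℕ)) × List NdC) × ℕ) × ℕ) × ℕ => x.1.1.1.2 :=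
    Primrec.snd.comp (Primrec.fst.comp (Primrec.fst.comp Primrec.fst))
  have hv : Primrec fun x : ((((ℕ × List (ℕ × ℕ)) × List NdC) × ℕ) × ℕ) × ℕ => x.1.1.2 :=
    Primrec.snd.comp (Primrec.fst.comp Primrec.fst)
  have ht : Primrec fun x : ((((ℕ × List (ℕ × ℕ)) × List NdC) × ℕ) × ℕ) × ℕ => x.1.2 :=
    Primrec.snd.comp Primrec.fst
  have hx : Primrec fun x : ((((ℕ × List (ℕ × ℕ)) × List NdC) × ℕ) × ℕ) × ℕ => x.2 :=
    Primrec.snd
  have hg : Primrec fun x : ((((ℕ × List (ℕ × ℕ)) × List NdC) × ℕ) × ℕ) × ℕ =>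
      x.1.1.1.2.getD x.2 (0, []) :=
    (Primrec.list_getD (0, [])).comp hD hx
  have hg1 : Primrec fun x : ((((ℕ × List (ℕ × ℕ)) × List NdC) × ℕ) × ℕ) × ℕ =>
      (x.1.1.1.2.getD x.2 (0, [])).1 := Primrec.fst.comp hg
  have hgg : Primrec fun x : ((((ℕ × List (ℕ × ℕ)) × List NdC) × ℕ) × ℕ) × ℕ =>
      (x.1.1.1.2.getD (x.1.1.1.2.getD x.2 (0, [])).1 (0, [])).2 :=
    Primrec.snd.comp ((Primrec.list_getD (0, [])).comp hD hg1)
  have h1 : PrimrecPred fun x : ((((ℕ × List (ℕ × ℕ)) × List NdC) × ℕ) × ℕ) × ℕ =>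
      x.1.1.2 ∈ (x.1.1.1.2.getD x.2 (0, [])).2 :=
    mem_listT (Primrec.snd.comp hg) hv
  have h2 : PrimrecPred fun x : ((((ℕ × List (ℕ × ℕ)) × List NdC) × ℕ) × ℕ) × ℕ =>
      x.2 = x.1.2 := Primrec.eq.comp hx ht
  have h3 : PrimrecPred fun x : ((((ℕ × List (ℕ × ℕ)) × List NdC) × ℕ) × ℕ) × ℕ =>
      (x.1.1.1.2.getD x.2 (0, [])).1 < x.2 := Primrec.nat_lt.comp hg1 hx
  have h4 : PrimrecPred fun x : ((((ℕ × List (ℕ × ℕ)) × List NdC) × ℕ) × ℕ) × ℕ =>
      x.1.1.2 ∈ (x.1.1.1.2.getD (x.1.1.1.2.getD x.2 (0, [])).1 (0, [])).2 :=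
    mem_listT hgg hv
  have h5 : PrimrecPred fun x : ((((ℕ × List (ℕ × ℕ)) × List NdC) × ℕ) × ℕ) × ℕ =>
      x.1.1.2 ∈ (x.1.1.1.2.getD x.2 (0, [])).2 → x.2 = x.1.2 ∨
        ((x.1.1.1.2.getD x.2 (0, [])).1 < x.2 ∧
          x.1.1.2 ∈ (x.1.1.1.2.getD (x.1.1.1.2.getD x.2 (0, [])).1 (0, [])).2) :=
    (h1.not.or (h2.or (h3.and h4))).of_eq fun x => imp_iff_not_or.symm
  have h6 : PrimrecPred fun x : (((ℕ × List (ℕ × ℕ)) × List NdC) × ℕ) × ℕ =>
      ∀ y ∈ List.range x.1.1.2.length, x.1.2 ∈ (x.1.1.2.getD y (0, [])).2 → y = x.2 ∨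
        ((x.1.1.2.getD y (0, [])).1 < y ∧
          x.1.2 ∈ (x.1.1.2.getD (x.1.1.2.getD y (0, [])).1 (0, [])).2) :=
    all_listT (Primrec.list_range.comp (Primrec.list_length.comp
      (Primrec.snd.comp (Primrec.fst.comp Primrec.fst)))) h5
  have h7 : PrimrecPred fun x : (((ℕ × List (ℕ × ℕ)) × List NdC) × ℕ) × ℕ =>
      x.1.2 ∈ (x.1.1.2.getD x.2 (0, [])).2 :=
    mem_listT (Primrec.snd.comp ((Primrec.list_getD (0, [])).comp
      (Primrec.snd.comp (Primrec.fst.comp Primrec.fst)) Primrec.snd))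
      (Primrec.snd.comp Primrec.fst)
  have h8 : PrimrecPred fun x : ((ℕ × List (ℕ × ℕ)) × List NdC) × ℕ =>
      ∃ t ∈ List.range x.1.2.length, x.2 ∈ (x.1.2.getD t (0, [])).2 ∧
      ∀ y ∈ List.range x.1.2.length, x.2 ∈ (x.1.2.getD y (0, [])).2 → y = t ∨
        ((x.1.2.getD y (0, [])).1 < y ∧
          x.2 ∈ (x.1.2.getD (x.1.2.getD y (0, [])).1 (0, [])).2) :=
    ex_listT (Primrec.list_range.comp (Primrec.list_length.comp
      (Primrec.snd.comp Primrec.fst))) (h7.and h6)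
  exact all_listT (Primrec.list_range.comp (Primrec.fst.comp Primrec.fst)) h8

theorem pf_CTP (h1 : V_LP) : V_TP := by
  intro k
  have hB : Primrec fun p : ℕ × List (ℕ × ℕ) =>
      ((List.range (p.1 + 2)).flatMap fun q =>
        (lists (List.range p.1) (k + 1)).map fun B => (q, B)) := by
    refine Primrec.list_flatMap (Primrec.list_range.comp
      (Primrec.nat_add.comp Primrec.fst (Primrec.const 2))) ?_
    refine Primrec.list_map (h1.comp (Primrec.list_range.comp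
      (Primrec.fst.comp Primrec.fst)) (Primrec.const (k + 1))) ?_
    exact Primrec.pair (Primrec.snd.comp Primrec.fst) Primrec.snd
  have hL : Primrec fun p : ℕ × List (ℕ × ℕ) =>
      lists ((List.range (p.1 + 2)).flatMap fun q =>
        (lists (List.range p.1) (k + 1)).map fun B => (q, B)) (p.1 + 1) :=
    h1.comp hB (Primrec.nat_add.comp Primrec.fst (Primrec.const 1))
  exact ex_listT hL (cov_pr.and (edg_pr.and con_pr))

end Pool.Agent.H67.SW
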